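import Pool.Agent.U167.SA.Stm8

/-!
Project SA, package POS: translations along the flat end of the strip.
-/

set_option autoImplicit false

namespace Pool.Agent.U402.SA

open H974 Finset MeasureTheory
open Pool.Agent.U167.SA

/-- shift of the edges by `(k,k)` -/
def sh (k : ℤ) : Edg ≃ Edg where
  toFun e := (e.1 + k, e.2.1 + k, e.2.2)
  invFun e := (e.1 - k, e.2.1 - k, e.2.2)
  left_inv e := by simp
  right_inv e := by simp

theorem tE_eq (k : ℤ) :
    tE k = ⇑(MeasurableEquiv.piCongrLeft (fun _ : Edg => Bool) (sh k).symm) := by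
  funext ω e
  have h := Equiv.piCongrLeft_apply_apply (fun _ : Edg => Bool) (sh k).symm ω ((sh k) e)
  rw [Equiv.symm_apply_apply] at h
  rw [MeasurableEquiv.coe_piCongrLeft, h]
  rfl

theorem real_tE (k : ℤ) (s : Set (Edg → Bool)) :
    percE.real (tE k ⁻¹' s) = percE.real s := by
  have hmp : MeasurePreserving (MeasurableEquiv.piCongrLeft (fun _ : Edg => Bool) (sh k).symm)
      percE percE :=
    ⟨(MeasurableEquiv.piCongrLeft (fun _ : Edg => Bool) (sh k).symm).measurable,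
      Measure.infinitePi_map_piCongrLeft
        (fun _ : Edg => (PMF.uniformOfFintype Bool).toMeasure) (sh k).symm⟩
  rw [tE_eq, Measure.real, Measure.real, hmp.measure_preimage_equiv]

theorem src_sh (k : ℤ) (e : Edg) : src (sh k e) = ((src e).1 + k, (src e).2 + k) := rfl

theorem tgt_sh (k : ℤ) (e : Edg) : tgt (sh k e) = ((tgt e).1 + k, (tgt e).2 + k) := by
  obtain ⟨x, y, b⟩ := e
  cases b
  · simp [sh, add_right_comm]
  · simp [sh, add_right_comm]

theorem src_sh' (k : ℤ) (e : Edg) : src ((sh k).symm e) = ((src e).1 - k, (src e).2 - k) := rfl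

theorem tgt_sh' (k : ℤ) (e : Edg) : tgt ((sh k).symm e) = ((tgt e).1 - k, (tgt e).2 - k) := by
  have h := tgt_sh k ((sh k).symm e)
  rw [Equiv.apply_symm_apply] at h
  rw [h]
  simp

theorem reach_sh (k : ℤ) (X X' : Set Edg) (h : ∀ e, e ∈ X' ↔ sh k e ∈ X) (u v : Vtx) :
    Reach X' u v ↔ Reach X (u.1 + k, u.2 + k) (v.1 + k, v.2 + k) := by
  constructor
  · intro hr
    refine Relation.ReflTransGen.lift (fun w : Vtx => ((w.1 + k, w.2 + k) : Vtx)) ?_ _ _ hr
    rintro a b ⟨e, he, hh⟩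
    refine ⟨sh k e, (h e).mp he, ?_⟩
    rw [src_sh, tgt_sh]
    rcases hh with ⟨h1, h2⟩ | ⟨h1, h2⟩
    · left; rw [h1, h2]; exact ⟨rfl, rfl⟩
    · right; rw [h1, h2]; exact ⟨rfl, rfl⟩
  · intro hr
    have hl : Reach X' ((u.1 + k - k, u.2 + k - k) : Vtx) ((v.1 + k - k, v.2 + k - k) : Vtx) := by
      refine Relation.ReflTransGen.lift (r := Adj X) (p := Adj X')
        (fun w : Vtx => ((w.1 - k, w.2 - k) : Vtx)) ?_ _ _ hr
      rintro a b ⟨e, he, hh⟩
      refine ⟨(sh k).symm e, (h _).mpr (by rw [Equiv.apply_symm_apply]; exact he), ?_⟩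
      rw [src_sh', tgt_sh']
      rcases hh with ⟨h1, h2⟩ | ⟨h1, h2⟩
      · left; rw [h1, h2]; exact ⟨rfl, rfl⟩
      · right; rw [h1, h2]; exact ⟨rfl, rfl⟩
    simpa using hl

theorem mem_sh (n : ℕ) (k : ℤ) (ω : Edg → Bool) (e : Edg) :
    e ∈ ({e | tE k ω e = true} ∩ StK n k : Set Edg) ↔
      sh k e ∈ ({e | ω e = true} ∩ StK n 0 : Set Edg) := by
  have h1 : tE k ω e = ω (sh k e) := rfl
  simp only [Set.mem_inter_iff, Set.mem_ofPred_eq, StK, src_sh, tgt_sh, h1, col, ht]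
  refine and_congr_right fun _ => ?_
  constructor
  · rintro ⟨⟨a1, a2, a3⟩, a4, a5, a6⟩
    refine ⟨⟨?_, ?_, ?_⟩, ?_, ?_, ?_⟩ <;> omega
  · rintro ⟨⟨a1, a2, a3⟩, a4, a5, a6⟩
    refine ⟨⟨?_, ?_, ?_⟩, ?_, ?_, ?_⟩ <;> omega

theorem cj_sh (n : ℕ) (k j : ℤ) (B : Set Vtx) (ω : Edg → Bool) :
    Cj ({e | ω e = true} ∩ StK n 0) (tV j B) (TpK n 0) ↔
      Cj ({e | tE k ω e = true} ∩ StK n k) (tV (j - k) B) (TpK n k) := by
  have h := mem_sh n k ω
  constructor
  · rintro ⟨u, hu, v, hv, hr⟩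
    refine ⟨(u.1 - k, u.2 - k), ?_, (v.1 - k, v.2 - k), ?_, ?_⟩
    · simp only [tV, Set.mem_ofPred_eq] at hu ⊢
      rwa [show u.1 - k - (j - k) = u.1 - j by ring, show u.2 - k - (j - k) = u.2 - j by ring]
    · simp only [TpK, Set.mem_ofPred_eq, ht] at hv ⊢
      omega
    · rw [reach_sh k _ _ h]
      simpa using hr
  · rintro ⟨u, hu, v, hv, hr⟩
    refine ⟨(u.1 + k, u.2 + k), ?_, (v.1 + k, v.2 + k), ?_, ?_⟩
    · simp only [tV, Set.mem_ofPred_eq] at hu ⊢
      rwa [show u.1 + k - j = u.1 - (j - k) by ring, show u.2 + k - j = u.2 - (j - k) by ring]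
    · simp only [TpK, Set.mem_ofPred_eq, ht] at hv ⊢
      omega
    · exact (reach_sh k _ _ h u v).mp hr

theorem tE_tE (k l : ℤ) (ω : Edg → Bool) : tE (l - k) (tE k ω) = tE l ω := by
  funext e
  simp only [tE]
  rw [show e.1 + (l - k) + k = e.1 + l by ring, show e.2.1 + (l - k) + k = e.2.1 + l by ring]

theorem tV_zero (A : Set Vtx) : tV 0 A = A := by
  ext v
  simp [tV]

theorem t_POS : PosStm := by
  intro m m' W W' A A' n k l
  unfold PW
  refine Eq.trans ?_ (real_tE k _)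
  congr 1
  ext ω
  have h1 := cj_sh n k k A ω
  rw [sub_self, tV_zero] at h1
  have h2 := cj_sh n k l A' ω
  simp only [XE, Pool.Agent.U167.SA.LE, Set.mem_inter_iff, Set.mem_ofPred_eq, Set.mem_preimage, Ev, Jn,
    List.mem_singleton, forall_eq, Set.union_empty, tE_tE, h1, h2]
  constructor
  · rintro ⟨⟨a, b⟩, c, d⟩
    refine ⟨?_, c, b, d⟩
    convert a
  · rintro ⟨a, c, b, d⟩
    refine ⟨⟨?_, b⟩, c, d⟩
    convert a

end Pool.Agent.U402.SA
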